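import Pool.Agent.N124.CU.Stm2

/-!
# Project CU (helper124): positions of `b` for `c` near `0` (helper711)
-/

set_option autoImplicit false

namespace Pool.Agent.N711.CU.InZ

open Filter Topology Pool.Agent.N124.CU

theorem root1 {a b c t : ℂ} (hb : b ≠ 0) (ht : t ^ 2 = 1 - 4 * a * c / b ^ 2) (h1 : 1 + t ≠ 0) :
    a * (-(2 * c) / (b * (1 + t))) ^ 2 + b * (-(2 * c) / (b * (1 + t))) + c = 0 := by
  have h2 : 4 * a * c = b ^ 2 * (1 - t ^ 2) := by
    rw [ht]
    field_simp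
    ring
  field_simp
  linear_combination c * h2

theorem root2 {a b c t : ℂ} (ha : a ≠ 0) (hb : b ≠ 0) (ht : t ^ 2 = 1 - 4 * a * c / b ^ 2) :
    a * (-(b * (1 + t)) / (2 * a)) ^ 2 + b * (-(b * (1 + t)) / (2 * a)) + c = 0 := by
  have h2 : 4 * a * c = b ^ 2 * (1 - t ^ 2) := by
    rw [ht]
    field_simp
    ring
  field_simp
  linear_combination h2

theorem t_innZ : S_innZ := by
  intro P p c hal hga hc h
  have hs : Tendsto (fun s : ℂ => s) (𝓝[≠] 0) (𝓝 0) := tendsto_id.mono_left nhdsWithin_le_nhds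
  have hne : ∀ᶠ s in 𝓝[≠] (0 : ℂ), s ≠ 0 := self_mem_nhdsWithin
  have hp : Tendsto p (𝓝[≠] 0) (𝓝 0) := by
    have h1 := hs.mul h
    rw [zero_mul] at h1
    refine h1.congr' ?_
    filter_upwards [hne] with s h2
    field_simp
  have hpne : ∀ᶠ s in 𝓝[≠] (0 : ℂ), p s ≠ 0 := by
    filter_upwards [h.eventually_ne hc] with s h2 h3
    rw [h3, zero_div] at h2
    exact h2 rfl
  have hA : Tendsto (fun s => P.ia (p s)) (𝓝[≠] 0) (𝓝 (-P.ga)) := by
    have h1 : Continuous P.ia := by unfold Par.ia; fun_prop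
    have h2 := (h1.tendsto 0).comp hp
    have h3 : P.ia 0 = -P.ga := by unfold Par.ia; ring
    rw [h3] at h2
    exact h2
  have hB : Tendsto (fun s => P.ib (p s)) (𝓝[≠] 0) (𝓝 (-P.ga)) := by
    have h1 : Continuous P.ib := by unfold Par.ib; fun_prop
    have h2 := (h1.tendsto 0).comp hp
    have h3 : P.ib 0 = -P.ga := by unfold Par.ib; ring
    rw [h3] at h2
    exact h2
  have hC : Tendsto (fun s => P.ic (p s)) (𝓝[≠] 0) (𝓝 0) := by
    have h1 : Continuous P.ic := by unfold Par.ic; fun_prop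
    have h2 := (h1.tendsto 0).comp hp
    have h3 : P.ic 0 = 0 := by unfold Par.ic; ring
    rw [h3] at h2
    exact h2
  have hCs : Tendsto (fun s => P.ic (p s) / s) (𝓝[≠] 0) (𝓝 (P.al * c)) := by
    have h1 : Tendsto (fun s => P.al * (p s / s) * (1 - p s)) (𝓝[≠] 0)
        (𝓝 (P.al * c * (1 - 0))) := (h.const_mul P.al).mul (hp.const_sub 1)
    rw [sub_zero, mul_one] at h1
    refine h1.congr fun s => ?_
    unfold Par.ic
    ring
  have hga' : -P.ga ≠ 0 := neg_ne_zero.2 hga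
  set θ : ℂ → ℂ := fun s => rt (1 - 4 * P.ia (p s) * P.ic (p s) / P.ib (p s) ^ 2) with hθ
  have hθ2 : ∀ s, θ s ^ 2 = 1 - 4 * P.ia (p s) * P.ic (p s) / P.ib (p s) ^ 2 := fun s => rt_sq _
  have hT : Tendsto θ (𝓝[≠] 0) (𝓝 1) := by
    have h1 : Tendsto (fun s => 1 - 4 * P.ia (p s) * P.ic (p s) / P.ib (p s) ^ 2) (𝓝[≠] 0)
        (𝓝 (1 - 4 * (-P.ga) * 0 / (-P.ga) ^ 2)) :=
      (((hA.const_mul 4).mul hC).div (hB.pow 2) (pow_ne_zero 2 hga')).const_sub 1
    rw [mul_zero, zero_div, sub_zero] at h1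
    have h2 : ContinuousAt (fun x : ℂ => rt x) 1 := rt_contAt_one continuousAt_id rfl
    have h3 := h2.tendsto.comp h1
    rw [rt_one] at h3
    exact h3
  have h1T : Tendsto (fun s => 1 + θ s) (𝓝[≠] 0) (𝓝 2) := by
    have h1 := hT.const_add 1
    rwa [one_add_one_eq_two] at h1
  set w1 : ℂ → ℂ := fun s => -(2 * P.ic (p s)) / (P.ib (p s) * (1 + θ s)) with hw1
  set w2 : ℂ → ℂ := fun s => -(P.ib (p s) * (1 + θ s)) / (2 * P.ia (p s)) with hw2
  have hAne := hA.eventually_ne hga'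
  have hBne := hB.eventually_ne hga'
  have hTne := h1T.eventually_ne (two_ne_zero : (2 : ℂ) ≠ 0)
  have l1 : Tendsto (fun s => w1 s / s) (𝓝[≠] 0) (𝓝 (P.al * c / P.ga)) := by
    have h1 : Tendsto (fun s => -(2 * (P.ic (p s) / s)) / (P.ib (p s) * (1 + θ s))) (𝓝[≠] 0)
        (𝓝 (-(2 * (P.al * c)) / (-P.ga * 2))) :=
      (hCs.const_mul 2).neg.div (hB.mul h1T) (mul_ne_zero hga' two_ne_zero)
    have h2 : -(2 * (P.al * c)) / (-P.ga * 2) = P.al * c / P.ga := by
      field_simp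
    rw [h2] at h1
    refine h1.congr fun s => ?_
    simp only [hw1]
    ring
  have l2 : Tendsto w2 (𝓝[≠] 0) (𝓝 (-1)) := by
    have h1 : Tendsto w2 (𝓝[≠] 0) (𝓝 (-(-P.ga * 2) / (2 * -P.ga))) :=
      (hB.mul h1T).neg.div (hA.const_mul 2) (mul_ne_zero two_ne_zero hga')
    have h2 : -(-P.ga * 2) / (2 * -P.ga) = -1 := by
      field_simp
    rwa [h2] at h1
  have hac : P.al * c / P.ga ≠ 0 := div_ne_zero (mul_ne_zero hal hc) hga
  have w1ne : ∀ᶠ s in 𝓝[≠] (0 : ℂ), w1 s ≠ 0 := by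
    filter_upwards [l1.eventually_ne hac] with s h2 h3
    rw [h3, zero_div] at h2
    exact h2 rfl
  have w2ne := l2.eventually_ne (neg_ne_zero.2 one_ne_zero)
  have l1' : Tendsto w1 (𝓝[≠] 0) (𝓝 0) := by
    have h1 := hs.mul l1
    rw [zero_mul] at h1
    refine h1.congr' ?_
    filter_upwards [hne] with s h2
    field_simp
  have v1 : Tendsto (fun s => s * (P.de + P.al / w1 s)) (𝓝[≠] 0) (𝓝 (P.ga / c)) := by
    have h1 : Tendsto (fun s => s * P.de + P.al / (w1 s / s)) (𝓝[≠] 0)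
        (𝓝 (0 * P.de + P.al / (P.al * c / P.ga))) :=
      (hs.mul_const P.de).add (tendsto_const_nhds.div l1 hac)
    have h2 : 0 * P.de + P.al / (P.al * c / P.ga) = P.ga / c := by
      field_simp
      ring
    rw [h2] at h1
    refine h1.congr fun s => ?_
    rw [mul_add, div_div_eq_mul_div]
    ring
  have v0 : Tendsto (fun s => P.de + P.al / w2 s) (𝓝[≠] 0) (𝓝 (P.de - P.al)) := by
    have h1 : Tendsto (fun s => P.de + P.al / w2 s) (𝓝[≠] 0) (𝓝 (P.de + P.al / (-1))) :=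
      (tendsto_const_nhds.div l2 (neg_ne_zero.2 one_ne_zero)).const_add _
    have h2 : P.de + P.al / (-1) = P.de - P.al := by ring
    rwa [h2] at h1
  have k1 : Tendsto (fun s => s * (P.de + P.al / w2 s) - P.ga / (p s / s)) (𝓝[≠] 0)
      (𝓝 (0 * (P.de - P.al) - P.ga / c)) := (hs.mul v0).sub (tendsto_const_nhds.div h hc)
  rw [zero_mul, zero_sub] at k1
  have hgc : -(P.ga / c) ≠ 0 := neg_ne_zero.2 (div_ne_zero hga hc)
  refine ⟨![fun s => 1 + w2 s, fun s => 1 + w1 s],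
    ![fun s => P.de + P.al / w2 s, fun s => P.de + P.al / w1 s], ?_, ⟨?_, v0⟩, ⟨?_, v1⟩, ?_⟩
  · filter_upwards [hAne, hBne, hTne] with s h1 h2 h3 f
    unfold Par.Inner
    rw [QP_split h1 h2 (hθ2 s) h3, mul_comm]
    rfl
  · have k2 : Tendsto (fun s => p s / s + P.be /
        (s * (P.de + P.al / w2 s) - P.ga / (p s / s))) (𝓝[≠] 0)
        (𝓝 (c + P.be / (-(P.ga / c)))) := h.add (tendsto_const_nhds.div k1 hgc)
    have k3 : c + P.be / (-(P.ga / c)) = c * (P.ga - P.be) / P.ga := by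
      field_simp
      ring
    rw [k3] at k2
    refine k2.congr' ?_
    filter_upwards [hne, hpne, hAne, hBne, w2ne, k1.eventually_ne hgc] with s a1 a2 a3 a4 a5 a6
    have a7 : P.RI (p s) (w2 s) := root2 a3 a4 (hθ2 s)
    rw [P.RI_iff a2 a5] at a7
    have a8 : s * (P.de + P.al / w2 s) - P.ga / (p s / s) =
        s * (P.de + P.al / w2 s - P.ga / p s) := by
      rw [div_div_eq_mul_div P.ga (p s) s]
      ring
    rw [a8] at a6 ⊢
    have a9 : P.de + P.al / w2 s - P.ga / p s ≠ 0 := right_ne_zero_of_mul a6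
    show p s / s + P.be / (s * (P.de + P.al / w2 s - P.ga / p s)) = (1 + w2 s) / s
    rw [← a7, mul_div_mul_right _ _ a9, ← add_div]
    congr 1
    ring
  · refine l1.congr fun s => ?_
    show w1 s / s = (1 + w1 s - 1) / s
    rw [add_sub_cancel_left]
  · have k2 : Tendsto (fun s => P.be / (1 + w1 s - p s)) (𝓝[≠] 0) (𝓝 (P.be / (1 + 0 - 0))) :=
      tendsto_const_nhds.div ((l1'.const_add 1).sub hp) (by norm_num)
    rw [add_zero, sub_zero, div_one] at k2
    refine k2.congr' ?_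
    have k3 : Tendsto (fun s => 1 + w1 s - p s) (𝓝[≠] 0) (𝓝 (1 + 0 - 0)) :=
      (l1'.const_add 1).sub hp
    filter_upwards [hpne, hBne, hTne, w1ne,
      k3.eventually_ne (by norm_num : (1 + 0 - 0 : ℂ) ≠ 0)] with s a2 a4 a5 a6 a7
    have a8 : P.RI (p s) (w1 s) := root1 a4 (hθ2 s) a5
    rw [P.RI_iff a2 a6] at a8
    show P.be / (1 + w1 s - p s) = P.de + P.al / w1 s - P.ga / p s
    rw [← a8, mul_div_cancel_left₀ _ a7]

end Pool.Agent.N711.CU.InZ
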